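import Pool.Agent.Helper38.MC.Lift3

/-!
# The exact border for symbols of arities at most 2: every large model has a family of blocks of bounded size
-/

set_option autoImplicit false

namespace Pool.Agent.Helper12.EK

open FirstOrder Pool.Agent.Helper20.Spectra Pool.Agent.Helper31.QD Pool.Agent.Helper38.MC
  Pool.Agent.Helper58.QD Pool.Agent.Helper40.MC Pool.Agent.Helper6.MC

/-- the blocks of a family are disjoint -/
lemma FamR_card_le {S : Type} {ar : S → ℕ} {n q t : ℕ} {R : Interp S ar (Fin n)}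
    (h : FamR R q t) : q * t ≤ n := by
  obtain ⟨u, hu, -⟩ := h
  have h1 := Fintype.card_le_of_injective u hu
  rwa [Fintype.card_prod, Fintype.card_fin, Fintype.card_fin, Fintype.card_fin] at h1

/-- every large model has a family of blocks of bounded size -/
theorem bounded_famD {S : Type} [Finite S] {ar : S → ℕ} {r : ℕ}
    (har : ∀ s, ar s ≤ r) (χ : (RelLang S ar).Sentence) {Q n₀ : ℕ} (hQ : qd χ ≤ Q)
    (hfam : ∀ n, n₀ ≤ n → ∀ R : Interp S ar (Fin n), IsMod χ R → ∃ t, 1 ≤ t ∧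
      FamR R (Q * t + (Q + r + 3)) t) :
    ∀ n, n₀ ≤ n → ∀ R : Interp S ar (Fin n), IsMod χ R → ∃ t, 1 ≤ t ∧ t ≤ n₀ + 1 ∧ FamR R Q t := by
  intro n
  induction n using Nat.strong_induction_on with
  | _ n ih =>
    intro hn R hR
    obtain ⟨t, ht1, hF⟩ := hfam n hn R hR
    by_contra hcon
    push Not at hcon
    have htK : n₀ + 1 < t := by
      by_contra h
      push Not at h
      exact hcon t ht1 h (hF.fewer (by omega))
    have hcard := FamR_card_le hF
    obtain ⟨q, hq⟩ : ∃ q, Q * t + (Q + r + 3) = q + 1 := ⟨Q * t + (Q + r + 3) - 1, by omega⟩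
    rw [hq] at hF hcard
    obtain ⟨n', hn', R', hR', hlift⟩ :=
      stmtLift S ar χ n q t Q r R har hR hF (by omega) (by omega)
    have h1 : t ≤ q * t := Nat.le_mul_of_pos_left t (by omega)
    have h2 : (q + 1) * t = q * t + t := by ring
    obtain ⟨t', ht1', ht2', hF'⟩ := ih n' (by omega) (by omega) R' hR'
    refine hcon t' ht1' ht2' (hlift t' ?_ hF')
    have h4 : Q * t' ≤ Q * t := Nat.mul_le_mul_left Q (by omega)
    omega

/-- every large model has a family of blocks of bounded size, and the spectrum -/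
theorem exactFO (hK : ∀ a b : ℕ, ∃ K : ℕ, ∀ (S : Type) [Finite S] (ar : S → ℕ), (∀ s, ar s ≤ 2) → ∀ (n : ℕ)
    (R : Interp S ar (Fin n)), (∀ t, 1 ≤ t → ¬ FamR R (a * t + b) t) → Nat.card (AuG R) ≤ K ^ n)
    (S : Type) [Finite S] (ar : S → ℕ) (har : ∀ s, ar s ≤ 2) (χ : (RelLang S ar).Sentence) :
    ∃ K : ℕ, (∀ᶠ n : ℕ in Filter.atTop, count χ n * K ^ n ≤ n.factorial) →
      ∃ k, FinAP k (Pool.Agent.Helper40.MC.spec χ) := by
  obtain ⟨Q, hQ⟩ : ∃ Q, Q = max 1 (qd χ) := ⟨_, rfl⟩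
  have hQ1 : 1 ≤ Q := by rw [hQ]; exact le_max_left _ _
  have hQ2 : qd χ ≤ Q := by rw [hQ]; exact le_max_right _ _
  obtain ⟨K, hK'⟩ := hK Q (Q + 2 + 3)
  refine ⟨K + 1, fun hcount => ?_⟩
  obtain ⟨n₁, hn₁⟩ := Filter.eventually_atTop.1 hcount
  have hfam := bounded_famD har χ (n₀ := max 1 n₁) hQ2 (fun n hn R hR => by
    by_contra hcon
    push Not at hcon
    have h0 := hK' S ar har n R hcon
    have h1 : count χ n * (K + 1) ^ n ≤ n.factorial := hn₁ n ((le_max_right _ _).trans hn)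
    have h2 : n.factorial ≤ count χ n * Nat.card (AuG R) := factorial_le hR
    have h3 : 0 < count χ n := by
      have h4 := n.factorial_pos.trans_le h2
      exact Nat.pos_of_mul_pos_right h4
    have h5 : (K + 1) ^ n ≤ Nat.card (AuG R) := Nat.le_of_mul_le_mul_left (h1.trans h2) h3
    have h6 : K ^ n < (K + 1) ^ n := by
      have : 1 ≤ n := (le_max_left _ _).trans hn
      exact Nat.pow_lt_pow_left (Nat.lt_succ_self K) (by omega)
    omega)
  refine ⟨max 1 n₁ + 1, (Pool.Agent.Helper12.MC.stmtAP _ _).1 ⟨max 1 n₁, ?_⟩⟩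
  rintro n ⟨-, R, hR⟩ hn
  obtain ⟨t, ht1, ht2, u, hu, hu'⟩ := hfam n hn R hR
  refine ⟨t, ht1, ht2, fun j => ⟨?_, pump χ R hR hQ1 hQ2 u hu hu' j⟩⟩
  have h6 : 1 ≤ n := (le_max_left _ _).trans hn
  omega

end Pool.Agent.Helper12.EK
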